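import Pool.Agent.Helper9.INSHC.Final
import Pool.Agent.Helper73.INS.Model

namespace Pool.Agent.Results.MP_2291ab_lc.InshcNotBpiNotIdfbi

open Pool.Agent.Helper73.Sym Pool.Agent.Helper9.INSHC

/-- There is a model `(M, ∈)` of ZF in which `INSHC` holds and both `BPI` and `IDFBI` fail. -/
theorem result : ∃ (M : Type) (_ : Membership M M),
    IsZF M ∧ INSHC M ∧ ¬ BPI M ∧ ¬ IDFBI M := by
  obtain ⟨M, i1, i2, hchains, A, hinf, hA, hdis, hch, hs⟩ := Pool.Agent.Helper73.INS.exists_model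
  refine ⟨M, i1, i2.toIsZF, final A hA hdis ?_ A hinf hs hchains⟩
  rintro ⟨C, hC⟩
  refine hch ⟨C, fun P hP => ?_⟩
  obtain ⟨x, h1, h2, h3⟩ := hC P hP
  exact ⟨x, ⟨h1, h2⟩, fun y hy => h3 y hy.1 hy.2⟩

end Pool.Agent.Results.MP_2291ab_lc.InshcNotBpiNotIdfbi
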